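import Pool.Agent.Helper47.SR.Goals

/-! MP_0130f7_co, packet SR-CASEC. -/

set_option autoImplicit false

namespace Pool.Agent.Helper79.SR2

open Pool.Agent.Helper47.SR Finset

theorem W_eq {n : ℕ} (G : Grp n) (F : Finset (Finset (Fin n))) : W G F = #F + Ew G F := by
  unfold W Ew
  rw [Finset.sum_add_distrib, Finset.sum_const, smul_eq_mul, mul_one]

theorem Ew_mono {n : ℕ} (G : Grp n) {F F' : Finset (Finset (Fin n))} (h : F ⊆ F') :
    Ew G F ≤ Ew G F' := by
  unfold Ew
  exact Finset.sum_le_sum_of_subset h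

theorem card_le_W {n : ℕ} (G : Grp n) (F : Finset (Finset (Fin n))) : #F ≤ W G F := by
  rw [W_eq]
  exact Nat.le_add_right _ _

theorem card_lev {n m : ℕ} {F : Finset (Finset (Fin n))} (h : F ⊆ lev n m) : #F ≤ n.choose m := by
  refine (card_le_card h).trans ?_
  rw [card_powersetCard, card_univ, Fintype.card_fin]

theorem W_le_two {n m : ℕ} (G : Grp n) {S : Finset (Finset (Fin n))} (h : S ⊆ lev n m) :
    W G S ≤ 2 * #S + ∑ A ∈ (lev n m).filter (fun A => 2 ≤ wt G A), (1 + wt G A) := by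
  classical
  have h1 : W G S ≤ ∑ A ∈ S, (2 + if 2 ≤ wt G A then 1 + wt G A else 0) := by
    unfold W
    refine Finset.sum_le_sum fun A _ => ?_
    split_ifs with hA
    · omega
    · omega
  refine h1.trans ?_
  rw [Finset.sum_add_distrib, Finset.sum_const, smul_eq_mul, ← Finset.sum_filter]
  have h2 : ∑ A ∈ S.filter (fun A => 2 ≤ wt G A), (1 + wt G A) ≤
      ∑ A ∈ (lev n m).filter (fun A => 2 ≤ wt G A), (1 + wt G A) :=
    Finset.sum_le_sum_of_subset (Finset.filter_subset_filter _ h)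
  omega

/-- SR-CASEC -/
theorem goal_CASEC (hTB : Goal_TB) (hKKA : Goal_KKA) (hKKB : Goal_KKB) (hE12 : Goal_E12)
    (hE3 : Goal_E3) (hSTAN : Goal_STAN) (hTR2 : Goal_TR2) : Goal_CASEC := by
  intro n G hG m i j hm hmn hi h1 h2 h3 h4 S hS Y hY iS iY hYE hW
  have hmn' : m ≤ n := by omega
  rcases Nat.lt_or_ge (W G (dn m Y)) (2 ^ (m + 1)) with hlt | hge
  · have a1 := hTR2 n G m Y hY iY hlt
    have a2 := hSTAN n G m (by omega) S hS iS
    omega
  -- common facts
  have hTBY := hTB n G hG m hm Y hY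
  have hEm := (hE12 n G hG m).2
  have hEm1 := (hE12 n G hG (m + 1)).2
  set T : ℕ := 2 ^ (n / 2) with hT
  have hY2 : #Y < (n + 1) * (n * T) := by
    refine hYE.trans_le ?_
    calc (m + 1) * Ew G (lev n (m + 1)) + (n - m) * Ew G (lev n m)
        ≤ (m + 1) * (n * T) + (n - m) * (n * T) :=
          Nat.add_le_add (Nat.mul_le_mul_left _ hEm1) (Nat.mul_le_mul_left _ hEm)
      _ = ((m + 1) + (n - m)) * (n * T) := by ring
      _ = (n + 1) * (n * T) := by
          congr 1
          omega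
  have hWY := W_eq G (dn m Y)
  have hWS := W_eq G S
  have hSe : Ew G S ≤ Ew G (lev n m) := Ew_mono G hS
  have hyb := card_le_W G Y
  have hua := card_le_W G (up m S)
  obtain ⟨q, hq⟩ : ∃ q, n = m + q := ⟨n - m, by omega⟩
  have hnm : n - m = q := by omega
  rcases Nat.lt_or_ge (W G S) (3 * n ^ 3 * T) with hlt | hge2
  · -- C2
    have hi1 : 1 ≤ i := by
      rcases Nat.eq_zero_or_pos i with h0 | h0
      · exfalso
        subst h0
        rw [Nat.add_zero, Nat.choose_self] at h1
        have : 0 < n ^ 3 * T := Nat.mul_pos (Nat.pow_pos (by omega)) (Nat.pow_pos (by norm_num))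
        have e : 3 * n ^ 3 * T = 3 * (n ^ 3 * T) := by ring
        omega
      · exact h0
    have kA := hKKA n m (m + i) (by omega) (by omega) Y hY (by omega)
    have kB := hKKB n m (n - m + j) hmn' (by omega) S hS (by omega)
    have ei : m + i - m = i := by omega
    have ej : n - m + j - (n - m) + 1 = j + 1 := by omega
    rw [ei] at kA
    rw [ej, hnm] at kB
    have e3 := hE3 n G hG m (by omega)
    have w2 := W_le_two G hS
    set E3 : ℕ := ∑ A ∈ (lev n m).filter (fun A => 2 ≤ wt G A), (1 + wt G A) with hE3d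
    -- (m+1) W(dn Y) ≤ (i+m) #Y
    have c1 : (m + 1) * W G (dn m Y) ≤ (i + m) * #Y := by
      rw [hWY, Nat.mul_add, Nat.add_mul i m]
      exact Nat.add_le_add kA hTBY
    have c2 : 2 ^ m ≤ #Y := by
      have d1 : (m + 1) * 2 ^ (m + 1) ≤ (2 * m + 2) * #Y :=
        ((Nat.mul_le_mul_left _ hge).trans c1).trans (Nat.mul_le_mul_right _ (by omega))
      have d2 : (2 * m + 2) * 2 ^ m ≤ (2 * m + 2) * #Y := by
        refine le_trans (le_of_eq ?_) d1
        ring
      exact Nat.le_of_mul_le_mul_left d2 (by omega)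
    have c3 : 11 * E3 ≤ W G S := by
      have d1 : 11 * E3 ≤ 22 * n ^ 3 * 2 ^ (n / 3) := by
        calc 11 * E3 ≤ 11 * (2 * n ^ 3 * 2 ^ (n / 3)) := Nat.mul_le_mul_left _ e3
          _ = _ := by ring
      omega
    rw [hnm] at h3
    -- final computation
    have hpos : 0 < 2 * (j + 1) * (m + 1) := by positivity
    refine Nat.le_of_mul_le_mul_left ?_ hpos
    have f1 : 2 * (j + 1) * (m + 1) * W G (dn m Y) ≤ 2 * (j + 1) * ((i + m) * #Y) := by
      calc 2 * (j + 1) * (m + 1) * W G (dn m Y) = 2 * (j + 1) * ((m + 1) * W G (dn m Y)) := by ring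
        _ ≤ _ := Nat.mul_le_mul_left _ c1
    have f2 : (m + 1) * (q * W G S) ≤ 2 * (j + 1) * (m + 1) * W G (up m S) + (m + 1) * (q * E3) := by
      calc (m + 1) * (q * W G S) ≤ (m + 1) * (q * (2 * #S + E3)) :=
            Nat.mul_le_mul_left _ (Nat.mul_le_mul_left _ w2)
        _ = 2 * (m + 1) * (q * #S) + (m + 1) * (q * E3) := by ring
        _ ≤ 2 * (m + 1) * ((j + 1) * #(up m S)) + (m + 1) * (q * E3) :=
            Nat.add_le_add_right (Nat.mul_le_mul_left _ kB) _
        _ ≤ 2 * (m + 1) * ((j + 1) * W G (up m S)) + (m + 1) * (q * E3) :=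
            Nat.add_le_add_right (Nat.mul_le_mul_left _ (Nat.mul_le_mul_left _ hua)) _
        _ = _ := by ring
    -- 22 (j+1)(i+m) W S ≤ 10 q (m+1) W S and 11 E3 ≤ W S
    have f3 : 22 * ((j + 1) * (i + m)) * W G S ≤ 10 * (q * (m + 1)) * W G S :=
      Nat.mul_le_mul_right _ h3
    have f4 : q * (m + 1) * (11 * E3) ≤ q * (m + 1) * W G S := Nat.mul_le_mul_left _ c3
    -- (i + m) #Y + (m+1) W S ≤ (i+m) W S + (m+1) W Y
    have f5 : (i + m) * #Y + (m + 1) * W G S ≤ (i + m) * W G S + (m + 1) * W G Y := by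
      obtain ⟨t, ht⟩ : ∃ t, i + m = (m + 1) + t := ⟨i - 1, by omega⟩
      rw [ht, Nat.add_mul (m + 1) t (#Y), Nat.add_mul (m + 1) t (W G S)]
      have g1 : (m + 1) * #Y ≤ (m + 1) * W G Y := Nat.mul_le_mul_left _ hyb
      have g2 : t * #Y ≤ t * W G S := Nat.mul_le_mul_left _ (hyb.trans hW.le)
      omega
    have f6 : 2 * (j + 1) * ((i + m) * #Y + (m + 1) * W G S) ≤
        2 * (j + 1) * ((i + m) * W G S + (m + 1) * W G Y) := Nat.mul_le_mul_left _ f5
    zify at f1 f2 f3 f4 f6 ⊢
    nlinarith [f1, f2, f3, f4, f6]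
  · -- C1
    have kA := hKKA n m n (by omega) hmn' Y hY (card_lev hY)
    have kB := hKKB n m n hmn' (by omega) S hS (by
      rw [Nat.choose_symm hmn']
      exact card_lev hS)
    have ej : n - (n - m) + 1 = m + 1 := by omega
    rw [ej, hnm] at kB
    rw [hnm] at kA
    have c1 : (m + 1) * W G (dn m Y) ≤ n * #Y := by
      rw [hWY, Nat.mul_add]
      calc (m + 1) * #(dn m Y) + (m + 1) * Ew G (dn m Y) ≤ q * #Y + m * #Y :=
            Nat.add_le_add kA hTBY
        _ = n * #Y := by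
            rw [show q * #Y + m * #Y = (m + q) * #Y by ring, ← hq]
    have c2 : q * W G S ≤ (m + 1) * W G (up m S) + q * Ew G (lev n m) := by
      calc q * W G S = q * #S + q * Ew G S := by rw [hWS, Nat.mul_add]
        _ ≤ (m + 1) * #(up m S) + q * Ew G (lev n m) :=
            Nat.add_le_add kB (Nat.mul_le_mul_left _ hSe)
        _ ≤ _ := Nat.add_le_add_right (Nat.mul_le_mul_left _ hua) _
    have c3 : n * #Y + q * Ew G (lev n m) ≤ W G S := by
      have d1 : n * #Y ≤ n * ((n + 1) * (n * T)) := Nat.mul_le_mul_left _ hY2.le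
      have d2 : q * Ew G (lev n m) ≤ n * (n * T) := Nat.mul_le_mul (by omega) hEm
      have d3 : n * ((n + 1) * (n * T)) + n * (n * T) ≤ 3 * n ^ 3 * T := by
        have hn1 : 1 ≤ n := by omega
        have e1 : n * ((n + 1) * (n * T)) + n * (n * T) = (n ^ 3 + 2 * n ^ 2) * T := by ring
        rw [e1]
        refine Nat.mul_le_mul_right _ ?_
        have e2 : n ^ 2 ≤ n ^ 3 := Nat.pow_le_pow_right hn1 (by norm_num)
        omega
      omega
    have c4 : (m + 1) * W G S + W G S ≤ q * W G S := by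
      have : (m + 1 + 1) * W G S ≤ q * W G S := Nat.mul_le_mul_right _ (by omega)
      calc (m + 1) * W G S + W G S = (m + 1 + 1) * W G S := by ring
        _ ≤ _ := this
    have hpos : 0 < m + 1 := by omega
    refine Nat.le_of_mul_le_mul_left ?_ hpos
    rw [Nat.mul_add, Nat.mul_add]
    omega

end Pool.Agent.Helper79.SR2
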